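import Pool.Agent.NPX.Stmts

/-!
# Squad NPX, row CNN (MP_005a41_gt): the group
-/

set_option autoImplicit false

open MeasureTheory Set Topology Pointwise

namespace Pool.Agent.NPX.H39

open Pool.Agent.LSG Pool.Agent.NPX

theorem cnn (hW : PwrStmt) (hM : MupStmt) (hY : MynStmt) (hT : TrnStmt) (hC : CrnStmt) :
    CnnStmt := by
  classical
  intro K _ _ _ _ _ _ _ _
  obtain ⟨hI0, hI1, hIadd, hImul, -⟩ := hW K
  obtain ⟨hprob, hHaar, hmk1, hprobk, hfib, hreg, hrange⟩ := hM K
  haveI : SecondCountableTopology K := by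
    letI := TopologicalSpace.metrizableSpaceMetric K
    exact EMetric.secondCountable_of_sigmaCompact K
  have hpow : ∀ t : ℤ, Measurable fun y : K => y ^ t := fun t => (continuous_zpow t).measurable
  have hquo : ∀ (φ : K → K), Measurable φ → ∀ t : ℤ, Measurable fun y : K => φ y * (y ^ t)⁻¹ :=
    fun φ hφ t => hφ.mul (hpow t).inv
  -- the finite groups of powers
  let R : Set K := ⋃ k ∈ {k : ℤ | ¬ Inf K k}, Set.range fun x : K => x ^ k
  have hR : R.Countable :=
    Set.Countable.biUnion (Set.to_countable _) fun k hk => (Set.not_infinite.1 hk).countable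
  have hRm : ∀ k : ℤ, ¬ Inf K k → ∀ x : K, x ^ k ∈ R := fun k hk x =>
    Set.mem_biUnion (show k ∈ {k : ℤ | ¬ Inf K k} from hk) ⟨x, rfl⟩
  let G0 : Subgroup K := Subgroup.closure R
  have hG0 : (G0 : Set K).Countable := by
    haveI : Countable R := hR.to_subtype
    have h1 : (FreeGroup.lift (fun x : R => (x : K))).range = G0 := by
      rw [FreeGroup.range_lift_eq_closure, Subtype.range_coe]
    rw [← h1, MonoidHom.coe_range]
    exact Set.countable_range _
  have hRG : ∀ k : ℤ, ¬ Inf K k → ∀ x : K, x ^ k ∈ G0 := fun k hk x =>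
    Subgroup.subset_closure (hRm k hk x)
  -- the conditions
  let J : Type := ℤ × Bool × {p : Set K × (K → K) // MeasurableSet p.1 ∧ Measurable p.2}
  let I : Type := {p : J // ∃ P : (ℕ → Bool) → K,
    (∀ σ, P σ ∈ p.2.2.1.1 ∧ ∃ x : K, x ^ p.1 = P σ) ∧
    (∀ t : ℤ, Inf K (p.1 * t) → ∀ y, {σ | (P σ) ^ t = y}.Finite) ∧
    (p.2.1 = true → ∀ (t : ℤ) (y : K), {σ | p.2.2.1.2 (P σ) * ((P σ) ^ t)⁻¹ = y}.Finite)}
  have hI : Cardinal.mk I ≤ Cardinal.continuum := (Cardinal.mk_subtype_le _).trans (hC K)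
  obtain ⟨G, hGG, hG⟩ := hT K I (fun i => i.1.2.1 = true) (fun i => i.2.choose)
    (fun i => i.1.2.2.1.2) G0 hG0 hI
    (by
      intro i t
      by_cases ht : Inf K (i.1.1 * t)
      · exact Or.inr (i.2.choose_spec.2.1 t ht)
      · left
        intro σ
        obtain ⟨x, hx⟩ := (i.2.choose_spec.1 σ).2
        rw [← hx, ← zpow_mul]
        exact hRG _ ht x)
    (fun i => i.2.choose_spec.2.2)
  -- the group meets every good set
  have key : ∀ (k : ℤ) (β : Bool) (E : Set K) (φ : K → K), Inf K k → MeasurableSet E →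
      Measurable φ → 0 < mk K k E →
      (β = true → ∀ (t : ℤ) (y : K), mk K k (E ∩ (fun x => φ x * (x ^ t)⁻¹) ⁻¹' {y}) = 0) →
      ∃ x ∈ G, x ∈ E ∧ (β = true → φ x ∉ G) := by
    intro k β E φ hk hE hφ hpos hnull
    haveI := hprobk k
    obtain ⟨hr1, hr2⟩ := hrange k
    have hpos' : 0 < mk K k (E ∩ Set.range fun x : K => x ^ k) := by
      refine lt_of_lt_of_le hpos ?_
      calc mk K k E ≤ mk K k ((E ∩ Set.range fun x : K => x ^ k) ∪
            (Set.range fun x : K => x ^ k)ᶜ) := by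
            refine measure_mono fun x hx => ?_
            by_cases h : x ∈ Set.range fun x : K => x ^ k
            · exact Or.inl ⟨hx, h⟩
            · exact Or.inr h
        _ ≤ mk K k (E ∩ Set.range fun x : K => x ^ k) +
            mk K k (Set.range fun x : K => x ^ k)ᶜ := measure_union_le _ _
        _ = mk K k (E ∩ Set.range fun x : K => x ^ k) := by rw [hr2, add_zero]
    obtain ⟨e, he⟩ := exists_surjective_nat (ℤ × Bool)
    let ψ : ℕ → K → K := fun n =>
      if (e n).2 = true ∧ β = true then fun y => φ y * (y ^ (e n).1)⁻¹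
      else if Inf K (k * (e n).1) then fun y => y ^ (e n).1 else fun y => y ^ (1 : ℤ)
    have hψm : ∀ n, Measurable (ψ n) := by
      intro n
      show Measurable (if (e n).2 = true ∧ β = true then fun y => φ y * (y ^ (e n).1)⁻¹
        else if Inf K (k * (e n).1) then fun y => y ^ (e n).1 else fun y => y ^ (1 : ℤ))
      split_ifs
      · exact hquo φ hφ _
      · exact hpow _
      · exact hpow _
    have hψn : ∀ n y, mk K k ((E ∩ Set.range fun x : K => x ^ k) ∩ ψ n ⁻¹' {y}) = 0 := by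
      intro n y
      show mk K k ((E ∩ Set.range fun x : K => x ^ k) ∩
        (if (e n).2 = true ∧ β = true then fun y => φ y * (y ^ (e n).1)⁻¹
        else if Inf K (k * (e n).1) then fun y => y ^ (e n).1 else fun y => y ^ (1 : ℤ)) ⁻¹' {y})
        = 0
      split_ifs with h1 h2
      · refine measure_mono_null ?_ (hnull h1.2 (e n).1 y)
        rintro x ⟨⟨hx, -⟩, hx2⟩
        exact ⟨hx, hx2⟩
      · refine measure_mono_null ?_ (hfib k _ h2 y)
        rintro x ⟨-, hx2⟩
        exact hx2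
      · refine measure_mono_null ?_ (hfib k 1 (by rw [mul_one]; exact hk) y)
        rintro x ⟨-, hx2⟩
        exact hx2
    obtain ⟨P, hP1, hP2⟩ := hY K (mk K k) (E ∩ Set.range fun x : K => x ^ k) ψ (hE.inter hr1)
      hψm hpos' hψn
    have hA : ∀ t : ℤ, Inf K (k * t) → ∀ y, {σ | (P σ) ^ t = y}.Finite := by
      intro t ht y
      obtain ⟨n, hn⟩ := he (t, false)
      have h3 : ψ n = fun y => y ^ t := by
        show (if (e n).2 = true ∧ β = true then fun y => φ y * (y ^ (e n).1)⁻¹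
          else if Inf K (k * (e n).1) then fun y => y ^ (e n).1 else fun y => y ^ (1 : ℤ)) = _
        rw [hn, if_neg (by simp), if_pos ht]
      have h4 := hP2 n y
      rw [h3] at h4
      exact h4
    have hB : β = true → ∀ (t : ℤ) (y : K), {σ | φ (P σ) * ((P σ) ^ t)⁻¹ = y}.Finite := by
      intro hβ t y
      obtain ⟨n, hn⟩ := he (t, true)
      have h3 : ψ n = fun y => φ y * (y ^ t)⁻¹ := by
        show (if (e n).2 = true ∧ β = true then fun y => φ y * (y ^ (e n).1)⁻¹
          else if Inf K (k * (e n).1) then fun y => y ^ (e n).1 else fun y => y ^ (1 : ℤ)) = _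
        rw [hn, if_pos ⟨rfl, hβ⟩]
      have h4 := hP2 n y
      rw [h3] at h4
      exact h4
    let i : I := ⟨(k, β, ⟨(E, φ), hE, hφ⟩), P, fun σ => ⟨(hP1 σ).1, (hP1 σ).2⟩, hA, hB⟩
    obtain ⟨σ, hσ1, hσ2⟩ := hG i
    exact ⟨_, hσ1, (i.2.choose_spec.1 σ).1, hσ2⟩
  have full : ∀ k : ℤ, Inf K k → ∀ E : Set K, MeasurableSet E → 0 < mk K k E →
      ∃ x ∈ G, x ∈ E := by
    intro k hk E hE hpos
    obtain ⟨x, hx, hxE, -⟩ := key k false E id hk hE measurable_id hpos (by simp)
    exact ⟨x, hx, hxE⟩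
  refine ⟨G, ⟨fun k hk x => hGG (hRG k hk x), full, ?_⟩, ?_⟩
  · intro k hk E φ hE hφ hEG
    haveI := hprobk k
    have hcount : ∀ t : ℤ,
        {s : K | 0 < mk K k (E ∩ (fun x => φ x * (x ^ t)⁻¹) ⁻¹' {s})}.Countable := by
      intro t
      refine Measure.countable_meas_pos_of_disjoint_iUnion (μ := mk K k)
        (As := fun s => E ∩ (fun x => φ x * (x ^ t)⁻¹) ⁻¹' {s})
        (fun s => hE.inter ((hquo φ hφ t) (measurableSet_singleton s))) ?_
      intro s s' hst
      refine Set.disjoint_left.mpr ?_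
      rintro x ⟨-, hx⟩ ⟨-, hx'⟩
      exact hst ((show φ x * (x ^ t)⁻¹ = s from hx).symm.trans hx')
    let S : Set K := ⋃ t : ℤ, {s : K | 0 < mk K k (E ∩ (fun x => φ x * (x ^ t)⁻¹) ⁻¹' {s})}
    have hS : S.Countable := Set.countable_iUnion hcount
    have hSG : S ⊆ G := by
      intro s hs
      obtain ⟨t, ht⟩ := Set.mem_iUnion.1 hs
      obtain ⟨x, hx, hxE, hxs⟩ := full k hk _
        (hE.inter ((hquo φ hφ t) (measurableSet_singleton s))) ht
      have h1 : φ x * (x ^ t)⁻¹ ∈ G := G.mul_mem (hEG x hx hxE) (G.inv_mem (G.zpow_mem hx t))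
      rw [show φ x * (x ^ t)⁻¹ = s from hxs] at h1
      exact h1
    refine ⟨S, hS, hSG, ?_⟩
    by_contra hne
    have hpos : 0 < mk K k {x | x ∈ E ∧ ∀ j : ℤ, φ x * (x ^ j)⁻¹ ∉ S} := pos_iff_ne_zero.mpr hne
    have hE' : MeasurableSet {x | x ∈ E ∧ ∀ j : ℤ, φ x * (x ^ j)⁻¹ ∉ S} := by
      have h1 : {x | x ∈ E ∧ ∀ j : ℤ, φ x * (x ^ j)⁻¹ ∉ S} =
          E ∩ ⋂ j : ℤ, (fun x => φ x * (x ^ j)⁻¹) ⁻¹' Sᶜ := by
        ext x
        simp only [Set.mem_setOf_eq, Set.mem_inter_iff, Set.mem_iInter, Set.mem_preimage,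
          Set.mem_compl_iff]
      rw [h1]
      exact hE.inter (MeasurableSet.iInter fun j => (hquo φ hφ j) hS.measurableSet.compl)
    obtain ⟨x, hx, hxE, hxn⟩ := key k true _ φ hk hE' hφ hpos (by
      intro _ t y
      by_cases hy : y ∈ S
      · refine measure_mono_null ?_ (measure_empty (μ := mk K k))
        rintro x ⟨⟨-, h1⟩, h2⟩
        exact h1 t ((show φ x * (x ^ t)⁻¹ = y from h2) ▸ hy)
      · have h0 : mk K k (E ∩ (fun x => φ x * (x ^ t)⁻¹) ⁻¹' {y}) = 0 := by
          by_contra h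
          exact hy (Set.mem_iUnion.2 ⟨t, pos_iff_ne_zero.mpr h⟩)
        refine measure_mono_null ?_ h0
        rintro x ⟨⟨h1, -⟩, h2⟩
        exact ⟨h1, h2⟩)
    exact hxn rfl (hEG x hx hxE.1)
  · rw [dense_iff_inter_open]
    intro U hU hne
    have h1 : 0 < mk K 1 U := by
      rw [hmk1]
      haveI := hHaar
      exact hU.measure_pos (mu K) hne
    obtain ⟨x, hx, hxU⟩ := full 1 hI1 U hU.measurableSet h1
    exact ⟨x, hxU, hx⟩

end Pool.Agent.NPX.H39
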